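import Pool.Agent.Y762.Grp
import Pool.Agent.Y762.FinJ

/-!
# Distinct zeros, uniformly in the modulus and the height

For every modulus `q`, every subgroup `G` of index `m` of the group of the Dirichlet characters
modulo `q` and every coset `χ₁ G` (all characters modulo `q` for `G` the whole group, the even or the
odd ones, the characters of an abelian field, ...), the number of distinct zeros with ordinates in
`(T, 2T]` of the L-functions of the characters in the coset is at least
`(2 j + 1 - c(1-a)) / (j (j + 1)) - ε` times their number counted with multiplicity, for every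
`j ≥ 1`, with constants which do not depend on `q`, `G`, `χ₁` or `T`, as soon as `T` is at least a
constant times `1 + √(log q) + (m-1)(1 + log q)²` and `m ≤ (qT)^a`.

Proof.  A trace inequality for the zeros weighted by test functions of Montgomery-Taylor type, with
no hypothesis on zeros off the line, in which a zero on the line of multiplicity `μ ≤ j + 1` counts
with `μ²`; the explicit formula with a Gaussian weight, uniform in the conductor; the mean square of
the prime sums over the coset and the height: the off-diagonal pairs `(n, n')` have `n' = h n` modulo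
`q` with `h` in a group of order `m`, and for fixed `h ≠ 1` the pairs with `n' - n = k` exist only
if `k` is a multiple of `gcd(h-1, q)`, and then lie in one class modulo `q / gcd(h-1, q)`.  The
prime sums may have length up to `(qT/m)^(1-ε)`.
-/

open Filter Topology

namespace Pool.Agent.Results.MP_f259ea_nt.CosetFamilies

/-- the nontrivial zeros of `L(s, χ)` with ordinate in `(T₁, T₂]` -/
def zeros {q : ℕ} [NeZero q] (χ : DirichletCharacter ℂ q) (T₁ T₂ : ℝ) : Set ℂ :=
  {s : ℂ | DirichletCharacter.LFunction χ s = 0 ∧ 0 < s.re ∧ s.re < 1 ∧ T₁ < s.im ∧ s.im ≤ T₂}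

/-- the number of nontrivial zeros with ordinate in `(T₁, T₂]`, counted with multiplicity -/
noncomputable def N {q : ℕ} [NeZero q] (χ : DirichletCharacter ℂ q) (T₁ T₂ : ℝ) : ℕ :=
  ∑ᶠ s ∈ zeros χ T₁ T₂, analyticOrderNatAt (DirichletCharacter.LFunction χ) s

/-- the number of distinct nontrivial zeros with ordinate in `(T₁, T₂]` -/
noncomputable def Nd {q : ℕ} [NeZero q] (χ : DirichletCharacter ℂ q) (T₁ T₂ : ℝ) : ℕ :=
  (zeros χ T₁ T₂).ncard

/-- the coset `χ₁ G` -/
def coset {q : ℕ} (G : Subgroup (DirichletCharacter ℂ q)) (χ₁ : DirichletCharacter ℂ q) :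
    Set (DirichletCharacter ℂ q) := {χ | χ₁⁻¹ * χ ∈ G}

/-- the Montgomery-Taylor function, `c(1) = c_MT⁻¹` -/
noncomputable def c (h : ℝ) : ℝ := h / 2 + Real.cot (h / Real.sqrt 2) / Real.sqrt 2

theorem zeros_eq {q : ℕ} [NeZero q] (χ : DirichletCharacter ℂ q) (T₁ T₂ : ℝ) :
    zeros χ T₁ T₂ = H370.zset (DirichletCharacter.LFunction χ) T₁ T₂ := by
  ext s
  simp only [zeros, H370.zset, Set.mem_ofPred_eq]
  tauto

theorem N_eq {q : ℕ} [NeZero q] (χ : DirichletCharacter ℂ q) (T₁ T₂ : ℝ) :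
    N χ T₁ T₂ = H370.NN (DirichletCharacter.LFunction χ) T₁ T₂ := by
  unfold N H370.NN H370.mult
  rw [zeros_eq]

theorem Nd_eq {q : ℕ} [NeZero q] (χ : DirichletCharacter ℂ q) (T₁ T₂ : ℝ) :
    Nd χ T₁ T₂ = H370.Nd (DirichletCharacter.LFunction χ) T₁ T₂ := by
  unfold Nd H370.Nd
  rw [zeros_eq]

/-- Let `0 ≤ a < 1`, `ε > 0` and `j ≥ 1`.  There are `C` and `ζ > 0` such that for every modulus
`q`, every subgroup `G` of index `m` of the group of characters modulo `q`, every coset `S = χ₁ G`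
and every `T ≥ C (1 + √(log q) + (m-1)(1 + log q)²)` with `m ≤ (qT)^a`: if `m ≤ (qT)^ζ`, or if the
average of `log (q / cond χ)` over `S` is at most `ζ log (qT)`, then the L-functions of the
characters in `S` have together at least `(1-ε) #S (T/2π) log (qT)` zeros with ordinate in
`(T, 2T]`, and the numbers of the distinct zeros add up to at least
`(2j + 1 - c(1-a)) / (j(j+1)) - ε` times the number of all zeros. -/
theorem result (a ε : ℝ) (ha0 : 0 ≤ a) (ha1 : a < 1) (hε : 0 < ε) (j : ℕ) (hj : 1 ≤ j) :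
    ∃ C ζ : ℝ, 0 < ζ ∧ ∀ (q : ℕ) [NeZero q] (G : Subgroup (DirichletCharacter ℂ q))
      (χ₁ : DirichletCharacter ℂ q) (T : ℝ),
      C * (1 + Real.sqrt (Real.log q) + ((G.index : ℝ) - 1) * (1 + Real.log q) ^ 2) ≤ T →
      (G.index : ℝ) ≤ (q * T) ^ a →
      ((G.index : ℝ) ≤ (q * T) ^ ζ ∨
        ∑ᶠ χ ∈ coset G χ₁, Real.log ((q : ℝ) / (χ.conductor : ℝ)) ≤
          ζ * Real.log (q * T) * ((coset G χ₁).ncard : ℝ)) →
      (∀ χ ∈ coset G χ₁, (zeros χ T (2 * T)).Finite) ∧
      (1 - ε) * (T / (2 * Real.pi) * Real.log (q * T)) * ((coset G χ₁).ncard : ℝ) ≤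
        ∑ᶠ χ ∈ coset G χ₁, (N χ T (2 * T) : ℝ) ∧
      ((2 * j + 1 - c (1 - a)) / (j * (j + 1)) - ε) * ∑ᶠ χ ∈ coset G χ₁, (N χ T (2 * T) : ℝ) ≤
        ∑ᶠ χ ∈ coset G χ₁, (Nd χ T (2 * T) : ℝ) := by
  classical
  have hj1 : (1 : ℝ) ≤ j := by exact_mod_cast hj
  have hjj : 0 < (j : ℝ) * (j + 1) := by positivity
  obtain ⟨C, ζ, hC, hζ, h⟩ := Pool.Agent.Y762.coset_j j hj a ε ha0 ha1 hε
  refine ⟨C, ζ, hζ, ?_⟩
  intro q _ G χ₁ T hT hm hcase
  obtain ⟨H, hH1, -, hH3⟩ := Pool.Agent.Y762.exists_dual G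
  have hset : coset G χ₁ = ((Pool.Agent.Y762.coset H χ₁ : Finset _) :
      Set (DirichletCharacter ℂ q)) := by
    ext χ
    rw [Finset.mem_coe, hH3]
    rfl
  rw [← hH1] at hT hm hcase
  have hT1 : 1 ≤ T := hC.trans (Pool.Agent.Y762.one_le_of_height hC q H hT)
  rw [hset] at hcase ⊢
  simp only [finsum_mem_coe_finset, Set.ncard_coe_finset] at hcase ⊢
  have hq0 : (q : ℝ) ≠ 0 := by exact_mod_cast NeZero.ne q
  have hlog : ∀ χ : DirichletCharacter ℂ q, Real.log ((q : ℝ) / (χ.conductor : ℝ)) =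
      Real.log q - Real.log χ.conductor := by
    intro χ
    have : (χ.conductor : ℝ) ≠ 0 := by exact_mod_cast χ.conductor_ne_zero
    rw [Real.log_div hq0 this]
  simp only [hlog] at hcase
  obtain ⟨r2, r3⟩ := h q H χ₁ T hT hm hcase
  simp only [N_eq, Nd_eq]
  refine ⟨fun χ _ => ?_, r3, ?_⟩
  · rw [zeros_eq]
    exact Pool.Agent.TH243.CYC.finite_zset χ T (2 * T) hT1
  · set SN : ℝ := ∑ χ ∈ Pool.Agent.Y762.coset H χ₁,
      (H370.NN (DirichletCharacter.LFunction χ) T (2 * T) : ℝ) with hSN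
    have hSN0 : 0 ≤ SN := Finset.sum_nonneg fun χ _ => Nat.cast_nonneg _
    have e : ((2 * j + 1 - c (1 - a)) / (j * (j + 1)) - ε) * SN * (j * (j + 1)) =
        (2 * j + 1 - (Pool.Agent.Y762.cH (1 - a) + ε)) * SN - ε * (j * (j + 1) - 1) * SN := by
      have : c (1 - a) = Pool.Agent.Y762.cH (1 - a) := rfl
      rw [this]
      field_simp
      ring
    have h2 : 0 ≤ ε * (j * (j + 1) - 1) * SN := by
      have : 0 ≤ (j : ℝ) * (j + 1) - 1 := by nlinarith
      positivity
    refine le_of_mul_le_mul_right ?_ hjj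
    rw [e]
    linarith

end Pool.Agent.Results.MP_f259ea_nt.CosetFamilies
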