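import Pool.Agent.Y771.DJ.AA
import Pool.Agent.H295R2.SI.Fin

/-!
# Distinct zeros of Dirichlet L-functions in every short interval

Unconditionally, for every primitive Dirichlet character `χ` modulo `q > 1` and every `0 < h ≤ 1` a
positive proportion of the zeros of `L(s, χ)` in EVERY interval `(T, T + H]`, `T ^ h ≤ H ≤ T`, are
distinct: for every integer `j ≥ 1`
`N_d ≥ ((2 j + 1 - c(h)) / (j (j + 1)) - ε) N + (excess multiplicity) / (j (j + 1))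
  + (j² + 1) / (2 j (j + 1)) N_off`, in particular `N_d ≥ (3 h / (3 + h²) - ε) N`.
In almost all intervals `(t, t + H]`, `T ^ η ≤ H`, `t ∈ [T, 2T]`, the same holds with
`c((1 + η) / 2)`, in particular `N_d ≥ (17 / 36) N` for every `η > 0`.
Here `c(h) = h/2 + cot(h/√2)/√2 ≤ 1/h + h/3`.
-/

set_option autoImplicit false

open Filter Topology Complex MeasureTheory

namespace Pool.Agent.Results.MP_f259ea_nt.EveryShortInterval

/-- the multiplicity of `s` as a zero of `L(s, χ)` -/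
noncomputable def mult {q : ℕ} [NeZero q] (χ : DirichletCharacter ℂ q) (s : ℂ) : ℕ :=
  analyticOrderNatAt (DirichletCharacter.LFunction χ) s

/-- the nontrivial zeros of `L(s, χ)` with ordinate in `(T₁, T₂]` -/
def zeros {q : ℕ} [NeZero q] (χ : DirichletCharacter ℂ q) (T₁ T₂ : ℝ) : Set ℂ :=
  {s : ℂ | DirichletCharacter.LFunction χ s = 0 ∧ 0 < s.re ∧ s.re < 1 ∧ T₁ < s.im ∧ s.im ≤ T₂}

/-- the number of nontrivial zeros with ordinate in `(T₁, T₂]`, counted with multiplicity -/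
noncomputable def N {q : ℕ} [NeZero q] (χ : DirichletCharacter ℂ q) (T₁ T₂ : ℝ) : ℕ :=
  ∑ᶠ s ∈ zeros χ T₁ T₂, mult χ s

/-- the number of distinct zeros with ordinate in `(T₁, T₂]` -/
noncomputable def Nd {q : ℕ} [NeZero q] (χ : DirichletCharacter ℂ q) (T₁ T₂ : ℝ) : ℕ :=
  (zeros χ T₁ T₂).ncard

/-- the number of distinct zeros off the critical line with ordinate in `(T₁, T₂]` -/
noncomputable def Noff {q : ℕ} [NeZero q] (χ : DirichletCharacter ℂ q) (T₁ T₂ : ℝ) : ℕ :=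
  {s : ℂ | s ∈ zeros χ T₁ T₂ ∧ s.re ≠ 1 / 2}.ncard

/-- the excess multiplicity: a zero of multiplicity `m` counts `max (m - (j + 1)) 0` if it is on the
critical line and `m - 1` if it is off the line (subtraction of natural numbers) -/
noncomputable def excess {q : ℕ} [NeZero q] (χ : DirichletCharacter ℂ q) (j : ℕ) (T₁ T₂ : ℝ) : ℕ :=
  ∑ᶠ s ∈ zeros χ T₁ T₂, (if s.re = 1 / 2 then mult χ s - (j + 1) else mult χ s - 1)

/-- the constant `c(h) = h/2 + cot(h/√2)/√2`; `c(1) = c_MT⁻¹ = 1.3274...` -/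
noncomputable def c (h : ℝ) : ℝ := h / 2 + Real.cot (h / Real.sqrt 2) / Real.sqrt 2

section

variable {q : ℕ} [NeZero q] (χ : DirichletCharacter ℂ q) (T₁ T₂ : ℝ)

theorem zeros_eq : zeros χ T₁ T₂ = H370.zset (DirichletCharacter.LFunction χ) T₁ T₂ := by
  ext s
  simp only [zeros, H370.zset, Set.mem_ofPred_eq]
  tauto

/-- the sets of zeros that are counted are finite -/
theorem zeros_finite (hχ : χ.IsPrimitive) (h : 0 < T₁) : (zeros χ T₁ T₂).Finite := by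
  rw [zeros_eq]
  exact H370.zset_finite' (H370.good_dirichlet χ hχ) T₁ T₂ h

theorem N_eq : N χ T₁ T₂ = H370.NN (DirichletCharacter.LFunction χ) T₁ T₂ := by
  unfold N H370.NN
  rw [zeros_eq]
  rfl

theorem Nd_eq : Nd χ T₁ T₂ = H370.Nd (DirichletCharacter.LFunction χ) T₁ T₂ := by
  unfold Nd H370.Nd
  rw [zeros_eq]

theorem SJ_eq (j : ℕ) : (excess χ j T₁ T₂ : ℝ) + ((j : ℝ) ^ 2 + 1) / 2 * (Noff χ T₁ T₂ : ℝ) =
    Pool.Agent.Y771.DJ.SJ j (DirichletCharacter.LFunction χ) T₁ T₂ := by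
  unfold excess Noff Pool.Agent.Y771.DJ.SJ Pool.Agent.Y771.DJ.EXJ W69DZ.NF
  rw [zeros_eq]
  rfl

end

/-- the bound for the number of distinct zeros in `(T₁, T₂]` with the parameters `j`, `h`, `ε` -/
def Bound {q : ℕ} [NeZero q] (χ : DirichletCharacter ℂ q) (j : ℕ) (h ε T₁ T₂ : ℝ) : Prop :=
  ((2 * j + 1 - c h) / (j * (j + 1)) - ε) * (N χ T₁ T₂ : ℝ) +
    (excess χ j T₁ T₂ : ℝ) / (j * (j + 1)) +
    ((j : ℝ) ^ 2 + 1) / (2 * j * (j + 1)) * (Noff χ T₁ T₂ : ℝ) ≤ (Nd χ T₁ T₂ : ℝ)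

lemma bound_of {q : ℕ} [NeZero q] (χ : DirichletCharacter ℂ q) {j : ℕ} (hj : 1 ≤ j)
    {h ε T₁ T₂ : ℝ} (hε : 0 < ε)
    (hb : (2 * j + 1 - H295SI.cc h - ε) *
      (H370.NN (DirichletCharacter.LFunction χ) T₁ T₂ : ℝ) +
      Pool.Agent.Y771.DJ.SJ j (DirichletCharacter.LFunction χ) T₁ T₂ ≤
        (j : ℝ) * (j + 1) * (H370.Nd (DirichletCharacter.LFunction χ) T₁ T₂ : ℝ)) :
    Bound χ j h ε T₁ T₂ := by
  have hj1 : (1 : ℝ) ≤ j := by exact_mod_cast hj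
  have hjj : 0 < (j : ℝ) * (j + 1) := by positivity
  have hc : H295SI.cc h = c h := rfl
  rw [hc, ← N_eq, ← Nd_eq, ← SJ_eq] at hb
  unfold Bound
  refine le_of_mul_le_mul_left ?_ hjj
  refine le_trans (le_of_eq ?_) (le_trans (sub_le_self _ ?_) hb) (b := (2 * j + 1 - c h - ε) *
    (N χ T₁ T₂ : ℝ) + ((excess χ j T₁ T₂ : ℝ) + ((j : ℝ) ^ 2 + 1) / 2 * (Noff χ T₁ T₂ : ℝ)) -
    ε * ((j : ℝ) * (j + 1) - 1) * (N χ T₁ T₂ : ℝ))
  · field_simp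
    ring
  · have : 0 ≤ (j : ℝ) * (j + 1) - 1 := by nlinarith
    positivity

/-- the chord of `1 / x` lies above the function -/
lemma chord (x : ℝ) (hx : 1 ≤ x) : ∃ j : ℕ, 1 ≤ j ∧ 1 / x ≤ (2 * j + 1 - x) / (j * (j + 1)) := by
  have hx0 : 0 ≤ x := by linarith
  refine ⟨⌊x⌋₊, (Nat.one_le_floor_iff x).mpr hx, ?_⟩
  have h1 : ((⌊x⌋₊ : ℕ) : ℝ) ≤ x := Nat.floor_le hx0
  have h2 : x < (⌊x⌋₊ : ℕ) + 1 := Nat.lt_floor_add_one x
  have h3 : 1 ≤ ((⌊x⌋₊ : ℕ) : ℝ) := by exact_mod_cast (Nat.one_le_floor_iff x).mpr hx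
  set a : ℝ := ((⌊x⌋₊ : ℕ) : ℝ) with ha
  rw [div_le_div_iff₀ (by linarith) (by positivity)]
  nlinarith [mul_nonneg (sub_nonneg.mpr h1) (sub_nonneg.mpr h2.le)]

/-- Distinct zeros of `L(s, χ)` in every short interval and in almost all very short intervals, for
every primitive character `χ` modulo `q > 1`. -/
theorem result (q : ℕ) [NeZero q] (hq : 1 < q) (χ : DirichletCharacter ℂ q) (hχ : χ.IsPrimitive) :
    -- every interval `(T, T + H]`, `T ^ h ≤ H ≤ T`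
    (∀ (j : ℕ) (h ε : ℝ), 1 ≤ j → 0 < h → h ≤ 1 → 0 < ε →
      ∃ T₀ : ℝ, ∀ T : ℝ, T₀ ≤ T → ∀ H : ℝ, T ^ h ≤ H → H ≤ T → Bound χ j h ε T (T + H)) ∧
    -- a positive proportion, for every `h`
    (∀ h ε : ℝ, 0 < h → h ≤ 1 → 0 < ε →
      ∃ T₀ : ℝ, ∀ T : ℝ, T₀ ≤ T → ∀ H : ℝ, T ^ h ≤ H → H ≤ T →
        (3 * h / (3 + h ^ 2) - ε) * (N χ T (T + H) : ℝ) ≤ (Nd χ T (T + H) : ℝ)) ∧
    -- almost all intervals `(t, t + H]`, `T ^ η ≤ H ≤ T / 8`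
    (∀ (j : ℕ) (η ε : ℝ), 1 ≤ j → 0 < η → η < 1 → 0 < ε →
      ∃ δ : ℝ, 0 < δ ∧ ∃ T₀ : ℝ, ∀ T : ℝ, T₀ ≤ T → ∀ H : ℝ, T ^ η ≤ H → H ≤ T / 8 →
        volume {t : ℝ | T ≤ t ∧ t ≤ 2 * T ∧ ¬ Bound χ j ((1 + η) / 2) ε t (t + H)} ≤
          ENNReal.ofReal (T ^ (1 - δ))) ∧
    -- more than 47 per cent, for every `η`
    (∀ η : ℝ, 0 < η → η < 1 →
      ∃ δ : ℝ, 0 < δ ∧ ∃ T₀ : ℝ, ∀ T : ℝ, T₀ ≤ T → ∀ H : ℝ, T ^ η ≤ H → H ≤ T / 8 →
        volume {t : ℝ | T ≤ t ∧ t ≤ 2 * T ∧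
          (Nd χ t (t + H) : ℝ) < 17 / 36 * (N χ t (t + H) : ℝ)} ≤ ENNReal.ofReal (T ^ (1 - δ))) ∧
    ∀ h : ℝ, 0 < h → h ≤ 1 → c h ≤ 1 / h + h / 3 := by
  have hg : H370.GoodL (DirichletCharacter.LFunction χ) := H370.good_dirichlet χ hχ
  have hχ1 : χ ≠ 1 := by
    rintro rfl
    have h1 : (1 : DirichletCharacter ℂ q).conductor = q := hχ
    rw [DirichletCharacter.conductor_one] at h1
    omega
  have part1 : ∀ (j : ℕ) (h ε : ℝ), 1 ≤ j → 0 < h → h ≤ 1 → 0 < ε →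
      ∃ T₀ : ℝ, ∀ T : ℝ, T₀ ≤ T → ∀ H : ℝ, T ^ h ≤ H → H ≤ T → Bound χ j h ε T (T + H) := by
    intro j h ε hj h0 h1 hε
    obtain ⟨T0, _, hT⟩ := Pool.Agent.Y771.DJ.every_j j hj hg h ε h0 h1 hε
    exact ⟨T0, fun T hTT H hH1 hH2 => bound_of χ hj hε (hT T hTT H hH1 hH2)⟩
  have part3 : ∀ (j : ℕ) (η ε : ℝ), 1 ≤ j → 0 < η → η < 1 → 0 < ε →
      ∃ δ : ℝ, 0 < δ ∧ ∃ T₀ : ℝ, ∀ T : ℝ, T₀ ≤ T → ∀ H : ℝ, T ^ η ≤ H → H ≤ T / 8 →
        volume {t : ℝ | T ≤ t ∧ t ≤ 2 * T ∧ ¬ Bound χ j ((1 + η) / 2) ε t (t + H)} ≤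
          ENNReal.ofReal (T ^ (1 - δ)) := by
    intro j η ε hj h0 h1 hε
    obtain ⟨δ, hδ, T0, _, hT⟩ := Pool.Agent.Y771.DJ.almost_j j hj hg
      (Pool.Agent.TH822.AA.bz_d χ hχ hχ1) η ((1 + η) / 2) ε h0 h1 (by linarith) (by linarith) hε
    refine ⟨δ, hδ, T0, fun T hTT H hH1 hH2 => (measure_mono ?_).trans (hT T hTT H hH1 hH2)⟩
    rintro t ⟨ht1, ht2, ht3⟩
    exact ⟨⟨ht1, ht2⟩, fun hcon => ht3 (bound_of χ hj hε hcon)⟩
  -- the last two terms are not negative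
  have hdrop : ∀ (j : ℕ) (h ε T₁ T₂ : ℝ), Bound χ j h ε T₁ T₂ →
      ((2 * j + 1 - c h) / (j * (j + 1)) - ε) * (N χ T₁ T₂ : ℝ) ≤ (Nd χ T₁ T₂ : ℝ) := by
    intro j h ε T₁ T₂ hb
    unfold Bound at hb
    have e1 : (0 : ℝ) ≤ (excess χ j T₁ T₂ : ℝ) / (j * (j + 1)) := by positivity
    have e2 : (0 : ℝ) ≤ ((j : ℝ) ^ 2 + 1) / (2 * j * (j + 1)) * (Noff χ T₁ T₂ : ℝ) := by
      positivity
    linarith
  refine ⟨part1, ?_, part3, ?_, H295SI.cc_le⟩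
  · intro h ε h0 h1 hε
    have hx : c h ≤ 1 / h + h / 3 := H295SI.cc_le h h0 h1
    have hx1 : 1 ≤ 1 / h + h / 3 := by
      have : 1 ≤ 1 / h := by rw [le_div_iff₀ h0]; linarith
      have : 0 ≤ h / 3 := by positivity
      linarith
    obtain ⟨j, hj, hjc⟩ := chord (1 / h + h / 3) hx1
    obtain ⟨T0, hT⟩ := part1 j h ε hj h0 h1 hε
    refine ⟨T0, fun T hTT H hH1 hH2 => le_trans ?_ (hdrop _ _ _ _ _ (hT T hTT H hH1 hH2))⟩
    refine mul_le_mul_of_nonneg_right ?_ (Nat.cast_nonneg _)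
    have hj1 : (1 : ℝ) ≤ j := by exact_mod_cast hj
    have e1 : 3 * h / (3 + h ^ 2) = 1 / (1 / h + h / 3) := by
      field_simp
    have e2 : (2 * j + 1 - (1 / h + h / 3)) / ((j : ℝ) * (j + 1)) ≤
        (2 * j + 1 - c h) / (j * (j + 1)) :=
      div_le_div_of_nonneg_right (by linarith) (by positivity)
    rw [e1]
    linarith
  · intro η h0 h1
    have hx : c ((1 + η) / 2) ≤ 1 / ((1 + η) / 2) + (1 + η) / 2 / 3 :=
      H295SI.cc_le _ (by linarith) (by linarith)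
    have hx1 : 1 / ((1 + η) / 2) + (1 + η) / 2 / 3 < 13 / 6 := by
      have e : 1 / ((1 + η) / 2) = 2 / (1 + η) := by field_simp
      rw [e, ← lt_sub_iff_add_lt, div_lt_iff₀ (by linarith)]
      nlinarith
    set ε : ℝ := (13 / 6 - c ((1 + η) / 2)) / 6 with hε
    have hε0 : 0 < ε := by rw [hε]; linarith
    obtain ⟨δ, hδ, T0, hT⟩ := part3 2 η ε (by norm_num) h0 h1 hε0
    refine ⟨δ, hδ, T0, fun T hTT H hH1 hH2 => (measure_mono ?_).trans (hT T hTT H hH1 hH2)⟩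
    rintro t ⟨ht1, ht2, ht3⟩
    refine ⟨ht1, ht2, fun hb => ?_⟩
    have h5 := hdrop _ _ _ _ _ hb
    have e : ((2 * ((2 : ℕ) : ℝ) + 1 - c ((1 + η) / 2)) / (((2 : ℕ) : ℝ) * (((2 : ℕ) : ℝ) + 1)) - ε) =
        17 / 36 := by
      rw [hε]; push_cast; ring
    rw [e] at h5
    linarith

end Pool.Agent.Results.MP_f259ea_nt.EveryShortInterval
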