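import Pool.Agent.Y745.MD
import Pool.Agent.TH803.UC.Sets
import Pool.Agent.H370R2.DirGood
import Pool.Agent.H295R2.SI.Fin

/-!
# The distribution of the multiplicities of the zeros of Dirichlet L-functions

Unconditionally, for every primitive Dirichlet character, in every interval `(T, T + H]` with `T ^ h ≤ H ≤ T` the truncated second moments of
the multiplicities of the zeros (on and off the critical line) satisfy the Montgomery-Taylor bound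
with the constant `c(h) = h/2 + cot(h/√2)/√2`. Consequences for the zeros of multiplicity at least `j`
(on or off the line, counted with multiplicity): at most `((c(h) - 1)/2 + ε) N` have multiplicity at
least `3`, for `h = 1` at most 16.38 percent of all zeros.
-/

open Filter Topology Complex

namespace Pool.Agent.Results.MP_f259ea_nt.MultiplicityDistribution

/-- the multiplicity of `s` as a zero of `L(s, χ)` -/
noncomputable def m {q : ℕ} [NeZero q] (χ : DirichletCharacter ℂ q) (s : ℂ) : ℕ :=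
  analyticOrderNatAt (DirichletCharacter.LFunction χ) s

/-- the nontrivial zeros of `L(s, χ)` with ordinate in `(T₁, T₂]` -/
def zeros {q : ℕ} [NeZero q] (χ : DirichletCharacter ℂ q) (T₁ T₂ : ℝ) : Set ℂ :=
  {s : ℂ | DirichletCharacter.LFunction χ s = 0 ∧ 0 < s.re ∧ s.re < 1 ∧ T₁ < s.im ∧ s.im ≤ T₂}

/-- the number of nontrivial zeros with ordinate in `(T₁, T₂]`, counted with multiplicity -/
noncomputable def N {q : ℕ} [NeZero q] (χ : DirichletCharacter ℂ q) (T₁ T₂ : ℝ) : ℕ :=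
  ∑ᶠ s ∈ zeros χ T₁ T₂, m χ s

/-- the number of those of multiplicity at least `j`, counted with multiplicity -/
noncomputable def Nge {q : ℕ} [NeZero q] (χ : DirichletCharacter ℂ q) (j : ℕ) (T₁ T₂ : ℝ) : ℕ :=
  ∑ᶠ s ∈ {s : ℂ | s ∈ zeros χ T₁ T₂ ∧ j ≤ m χ s}, m χ s

/-- the capped weight of a zero: on the critical line `m²` for `m ≤ μ` and `2 μ m - μ²` for `m > μ`,
off the line `2 μ m - μ²/2` -/
noncomputable def w {q : ℕ} [NeZero q] (χ : DirichletCharacter ℂ q) (μ : ℝ) (s : ℂ) : ℝ :=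
  if s.re = 1 / 2 then (if (m χ s : ℝ) ≤ μ then (m χ s : ℝ) ^ 2 else 2 * μ * m χ s - μ ^ 2)
  else 2 * μ * m χ s - μ ^ 2 / 2

/-- the constant `c(h) = h/2 + cot(h/√2)/√2`; `c(1) = c_MT⁻¹ = 1.3274...` -/
noncomputable def c (h : ℝ) : ℝ := h / 2 + Real.cot (h / Real.sqrt 2) / Real.sqrt 2

section

variable {q : ℕ} [NeZero q] (χ : DirichletCharacter ℂ q) (T₁ T₂ : ℝ)

theorem zeros_eq : zeros χ T₁ T₂ = H370.zset (DirichletCharacter.LFunction χ) T₁ T₂ := by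
  ext s
  simp only [zeros, H370.zset, Set.mem_ofPred_eq]
  tauto

/-- the sets of zeros that are counted are finite -/
theorem zeros_finite (hχ : χ.IsPrimitive) (h : 0 < T₁) : (zeros χ T₁ T₂).Finite := by
  rw [zeros_eq]
  exact H370.zset_finite' (H370.good_dirichlet χ hχ) T₁ T₂ h

theorem N_eq : N χ T₁ T₂ = H370.NN (DirichletCharacter.LFunction χ) T₁ T₂ := by
  unfold N H370.NN
  rw [zeros_eq]
  rfl

theorem Nge_eq (j : ℕ) : Nge χ j T₁ T₂ =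
    Pool.Agent.Y745.MD.Nge (DirichletCharacter.LFunction χ) j T₁ T₂ := by
  unfold Nge Pool.Agent.Y745.MD.Nge
  rw [zeros_eq]
  rfl

end

/-- **the distribution of the multiplicities** -/
theorem result (q : ℕ) [NeZero q] (χ : DirichletCharacter ℂ q) (hχ : χ.IsPrimitive) :
    -- truncated second moments
    (∀ μ h ε : ℝ, 2 ≤ μ → 0 < h → h ≤ 1 → 0 < ε → ∃ T₀ : ℝ, ∀ T : ℝ, T₀ ≤ T →
      ∀ H : ℝ, T ^ h ≤ H → H ≤ T →
        ∑ᶠ s ∈ zeros χ T (T + H), w χ μ s ≤ (c h + ε) * (N χ T (T + H) : ℝ)) ∧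
    -- zeros of multiplicity at least `j`
    (∀ (j : ℕ) (μ h ε : ℝ), 2 ≤ μ → μ ≤ 4 → μ ≤ j → 0 < h → h ≤ 1 → 0 < ε → ∃ T₀ : ℝ, ∀ T : ℝ,
      T₀ ≤ T → ∀ H : ℝ, T ^ h ≤ H → H ≤ T →
        (Nge χ j T (T + H) : ℝ) ≤ ((c h - min 1 (2 * μ - μ ^ 2 / 2)) /
          (2 * μ - μ ^ 2 / j - min 1 (2 * μ - μ ^ 2 / 2)) + ε) * (N χ T (T + H) : ℝ)) ∧
    -- the best choices for `h = 1`
    (∀ h ε : ℝ, 0 < h → h ≤ 1 → 0 < ε → ∃ T₀ : ℝ, ∀ T : ℝ, T₀ ≤ T → ∀ H : ℝ, T ^ h ≤ H → H ≤ T →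
      (Nge χ 3 T (T + H) : ℝ) ≤ ((c h - 1) / 2 + ε) * (N χ T (T + H) : ℝ)) ∧
    (∀ (j : ℕ) (h ε : ℝ), 4 ≤ j → 0 < h → h ≤ 1 → 0 < ε → ∃ T₀ : ℝ, ∀ T : ℝ, T₀ ≤ T →
      ∀ H : ℝ, T ^ h ≤ H → H ≤ T →
      (Nge χ j T (T + H) : ℝ) ≤ ((c h - 1) / (3 + 2 * Real.sqrt 2 - (6 + 4 * Real.sqrt 2) / j) + ε) *
        (N χ T (T + H) : ℝ)) ∧
    -- the proportions in `(T, 2 T]`
    (∃ T₀ : ℝ, ∀ T : ℝ, T₀ ≤ T → (Nge χ 3 T (2 * T) : ℝ) ≤ 0.1638 * (N χ T (2 * T) : ℝ) ∧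
      (Nge χ 4 T (2 * T) : ℝ) ≤ 0.1124 * (N χ T (2 * T) : ℝ)) := by
  have s2 : Real.sqrt 2 ^ 2 = 2 := Real.sq_sqrt (by norm_num)
  have s0 : 0 ≤ Real.sqrt 2 := Real.sqrt_nonneg 2
  have slo : 1.4142 < Real.sqrt 2 := by
    refine Real.lt_sqrt_of_sq_lt ?_
    norm_num
  have shi : Real.sqrt 2 < 1.4143 := by
    rw [Real.sqrt_lt' (by norm_num)]
    norm_num
  have gen : ∀ (j : ℕ) (μ h ε : ℝ), 2 ≤ μ → μ ≤ 4 → μ ≤ j → 0 < h → h ≤ 1 → 0 < ε → ∃ T₀ : ℝ,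
      ∀ T : ℝ, T₀ ≤ T → ∀ H : ℝ, T ^ h ≤ H → H ≤ T →
        (Nge χ j T (T + H) : ℝ) ≤ ((c h - min 1 (2 * μ - μ ^ 2 / 2)) /
          (2 * μ - μ ^ 2 / j - min 1 (2 * μ - μ ^ 2 / 2)) + ε) * (N χ T (T + H) : ℝ) := by
    intro j μ h ε hμ hμ4 hj hh0 hh1 hε
    obtain ⟨T0, -, hT0⟩ := Pool.Agent.Y745.MD.tail (H370.good_dirichlet χ hχ) μ h ε j hμ hμ4 hj hh0 hh1 hε
    refine ⟨T0, fun T hT H hH1 hH2 => ?_⟩
    rw [Nge_eq, N_eq]
    exact hT0 T hT H hH1 hH2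
  have three : ∀ h ε : ℝ, 0 < h → h ≤ 1 → 0 < ε → ∃ T₀ : ℝ, ∀ T : ℝ, T₀ ≤ T →
      ∀ H : ℝ, T ^ h ≤ H → H ≤ T →
      (Nge χ 3 T (T + H) : ℝ) ≤ ((c h - 1) / 2 + ε) * (N χ T (T + H) : ℝ) := by
    intro h ε hh0 hh1 hε
    obtain ⟨T0, hT0⟩ := gen 3 3 h ε (by norm_num) (by norm_num) (by norm_num) hh0 hh1 hε
    refine ⟨T0, fun T hT H hH1 hH2 => ?_⟩
    have h1 := hT0 T hT H hH1 hH2
    have e1 : min (1:ℝ) (2 * 3 - 3 ^ 2 / 2) = 1 := by norm_num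
    rw [e1] at h1
    refine h1.trans (le_of_eq ?_)
    push_cast
    congr 2
    norm_num
  have big : ∀ (j : ℕ) (h ε : ℝ), 4 ≤ j → 0 < h → h ≤ 1 → 0 < ε → ∃ T₀ : ℝ, ∀ T : ℝ, T₀ ≤ T →
      ∀ H : ℝ, T ^ h ≤ H → H ≤ T →
      (Nge χ j T (T + H) : ℝ) ≤ ((c h - 1) / (3 + 2 * Real.sqrt 2 - (6 + 4 * Real.sqrt 2) / j) + ε) *
        (N χ T (T + H) : ℝ) := by
    intro j h ε hj hh0 hh1 hε
    have hj' : (4 : ℝ) ≤ j := by exact_mod_cast hj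
    obtain ⟨T0, hT0⟩ := gen j (2 + Real.sqrt 2) h ε (by linarith) (by linarith) (by linarith) hh0 hh1 hε
    refine ⟨T0, fun T hT H hH1 hH2 => ?_⟩
    have h1 := hT0 T hT H hH1 hH2
    have e0 : (2 + Real.sqrt 2) ^ 2 = 6 + 4 * Real.sqrt 2 := by linarith [s2, (by ring :
      (2 + Real.sqrt 2) ^ 2 = 4 + 4 * Real.sqrt 2 + Real.sqrt 2 ^ 2)]
    have e1 : min (1:ℝ) (2 * (2 + Real.sqrt 2) - (2 + Real.sqrt 2) ^ 2 / 2) = 1 := by
      rw [e0]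
      have : 2 * (2 + Real.sqrt 2) - (6 + 4 * Real.sqrt 2) / 2 = 1 := by ring
      rw [this, min_self]
    rw [e1, e0] at h1
    refine h1.trans (le_of_eq ?_)
    congr 3
    ring
  refine ⟨fun μ h ε hμ hh0 hh1 hε => ?_, gen, three, big, ?_⟩
  · obtain ⟨T0, -, hT0⟩ := Pool.Agent.Y710.C4.capped (H370.good_dirichlet χ hχ) μ h ε hμ hh0 hh1 hε
    refine ⟨T0, fun T hT H hH1 hH2 => ?_⟩
    rw [N_eq, zeros_eq]
    exact hT0 T hT H hH1 hH2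
  · have hc : c 1 ≤ 1.3275 := TH803UC.cc_lt
    obtain ⟨T1, hT1⟩ := three 1 0.00005 one_pos le_rfl (by norm_num)
    obtain ⟨T2, hT2⟩ := big 4 1 0.00001 le_rfl one_pos le_rfl (by norm_num)
    refine ⟨max (max T1 T2) 1, fun T hT => ?_⟩
    have a1 : T1 ≤ T := ((le_max_left _ _).trans (le_max_left _ _)).trans hT
    have a2 : T2 ≤ T := ((le_max_right _ _).trans (le_max_left _ _)).trans hT
    have a3 : T ^ (1 : ℝ) ≤ T := by rw [Real.rpow_one]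
    have e : 2 * T = T + T := by ring
    rw [e]
    constructor
    · refine (hT1 T a1 T a3 le_rfl).trans ?_
      refine mul_le_mul_of_nonneg_right ?_ (Nat.cast_nonneg _)
      linarith
    · refine (hT2 T a2 T a3 le_rfl).trans ?_
      refine mul_le_mul_of_nonneg_right ?_ (Nat.cast_nonneg _)
      have hD : 2.9142 ≤ 3 + 2 * Real.sqrt 2 - (6 + 4 * Real.sqrt 2) / ((4 : ℕ) : ℝ) := by
        push_cast
        linarith
      have h3 : (c 1 - 1) / (3 + 2 * Real.sqrt 2 - (6 + 4 * Real.sqrt 2) / ((4 : ℕ) : ℝ)) ≤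
          0.3275 / 2.9142 := by
        refine div_le_div₀ (by norm_num) (by linarith) (by norm_num) hD
      have h4 : (0.3275 : ℝ) / 2.9142 ≤ 0.11239 := by norm_num
      linarith

end Pool.Agent.Results.MP_f259ea_nt.MultiplicityDistribution
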