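import Pool.Agent.Y762.FinJ

/-!
# Distinct zeros of a single Dirichlet L-function, uniformly in the conductor

Let `A > 0`.  For every primitive Dirichlet character `χ` modulo `q` and every `T ≥ C q^A` the number
of distinct zeros of `L(s, χ)` with ordinates in `(T, 2T]` is at least
`(2 j + 1 - c(h)) / (j (j + 1)) - ε` times the number of zeros counted with multiplicity, for every
`j ≥ 1`, `h = A / (1 + A)`.  The constant `C` depends on `A`, `ε` and `j` only.  The maximum over `j`
is the linear interpolation of `1 / x` between the integers, at `x = c(h)`; it tends to `0.8362` as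
`A` grows and is of the order of `A` for small `A`.

Proof.  A trace inequality for the zeros weighted by test functions of Montgomery-Taylor type, with
no hypothesis on zeros off the line, in which a zero on the line of multiplicity `μ ≤ j + 1` counts
with `μ²`; the explicit formula with a Gaussian weight, uniform in the conductor, and the mean value
theorem for prime sums of length `T^(1-ε)`.
-/

open Filter Topology

namespace Pool.Agent.Results.MP_f259ea_nt.UniformDistinct

/-- the nontrivial zeros of `L(s, χ)` with ordinate in `(T₁, T₂]` -/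
def zeros {q : ℕ} [NeZero q] (χ : DirichletCharacter ℂ q) (T₁ T₂ : ℝ) : Set ℂ :=
  {s : ℂ | DirichletCharacter.LFunction χ s = 0 ∧ 0 < s.re ∧ s.re < 1 ∧ T₁ < s.im ∧ s.im ≤ T₂}

/-- the number of nontrivial zeros with ordinate in `(T₁, T₂]`, counted with multiplicity -/
noncomputable def N {q : ℕ} [NeZero q] (χ : DirichletCharacter ℂ q) (T₁ T₂ : ℝ) : ℕ :=
  ∑ᶠ s ∈ zeros χ T₁ T₂, analyticOrderNatAt (DirichletCharacter.LFunction χ) s

/-- the number of distinct nontrivial zeros with ordinate in `(T₁, T₂]` -/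
noncomputable def Nd {q : ℕ} [NeZero q] (χ : DirichletCharacter ℂ q) (T₁ T₂ : ℝ) : ℕ :=
  (zeros χ T₁ T₂).ncard

/-- the Montgomery-Taylor function, `c(1) = c_MT⁻¹` -/
noncomputable def c (h : ℝ) : ℝ := h / 2 + Real.cot (h / Real.sqrt 2) / Real.sqrt 2

theorem zeros_eq {q : ℕ} [NeZero q] (χ : DirichletCharacter ℂ q) (T₁ T₂ : ℝ) :
    zeros χ T₁ T₂ = H370.zset (DirichletCharacter.LFunction χ) T₁ T₂ := by
  ext s
  simp only [zeros, H370.zset, Set.mem_ofPred_eq]
  tauto

theorem N_eq {q : ℕ} [NeZero q] (χ : DirichletCharacter ℂ q) (T₁ T₂ : ℝ) :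
    N χ T₁ T₂ = H370.NN (DirichletCharacter.LFunction χ) T₁ T₂ := by
  unfold N H370.NN H370.mult
  rw [zeros_eq]

theorem Nd_eq {q : ℕ} [NeZero q] (χ : DirichletCharacter ℂ q) (T₁ T₂ : ℝ) :
    Nd χ T₁ T₂ = H370.Nd (DirichletCharacter.LFunction χ) T₁ T₂ := by
  unfold Nd H370.Nd
  rw [zeros_eq]

/-- Let `A, ε > 0` and `j ≥ 1`.  There is `C` such that for every primitive character `χ` modulo `q`
and every `T ≥ C q ^ A`: the number of zeros of `L(s, χ)` with ordinate in `(T, 2T]` is at least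
`(1-ε) (T/2π) log (qT)`, and the number of the distinct ones is at least
`(2j + 1 - c(A/(1+A))) / (j(j+1)) - ε` times the number of all zeros. -/
theorem result (A ε : ℝ) (hA : 0 < A) (hε : 0 < ε) (j : ℕ) (hj : 1 ≤ j) :
    ∃ C : ℝ, ∀ (q : ℕ) [NeZero q] (χ : DirichletCharacter ℂ q) (T : ℝ), χ.IsPrimitive →
      C * (q : ℝ) ^ A ≤ T →
      (zeros χ T (2 * T)).Finite ∧
      (1 - ε) * (T / (2 * Real.pi) * Real.log (q * T)) ≤ (N χ T (2 * T) : ℝ) ∧
      ((2 * j + 1 - c (A / (1 + A))) / (j * (j + 1)) - ε) * (N χ T (2 * T) : ℝ) ≤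
        (Nd χ T (2 * T) : ℝ) := by
  have hj1 : (1 : ℝ) ≤ j := by exact_mod_cast hj
  have hjj : 0 < (j : ℝ) * (j + 1) := by positivity
  have hA1 : 0 < 1 + A := by linarith
  have hh0 : 0 < A / (1 + A) := by positivity
  have hh1 : A / (1 + A) ≤ 1 := by rw [div_le_one hA1]; linarith
  obtain ⟨C, hC, h⟩ := Pool.Agent.Y762.single_j j hj (A / (1 + A)) ε hh0 hh1 hε
  refine ⟨C, ?_⟩
  intro q _ χ T hχ hT
  have hq1 : (1 : ℝ) ≤ q := by exact_mod_cast (NeZero.one_le : 1 ≤ q)
  have hq0 : (0 : ℝ) < q := by linarith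
  have hqA : 1 ≤ (q : ℝ) ^ A := Real.one_le_rpow hq1 hA.le
  have hCT : C ≤ T := le_trans (le_mul_of_one_le_right (by linarith) hqA) hT
  have hT1 : 1 ≤ T := hC.trans hCT
  have hT0 : 0 < T := by linarith
  have hqT : (q * T) ^ (A / (1 + A)) ≤ T := by
    have h1 : (q : ℝ) ^ A ≤ T := le_trans (le_mul_of_one_le_left (by linarith) hC) hT
    have h2 : (q * T) ^ A ≤ T ^ (1 + A) := by
      rw [Real.mul_rpow hq0.le hT0.le, Real.rpow_add hT0, Real.rpow_one]
      exact mul_le_mul_of_nonneg_right h1 (by positivity)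
    calc (q * T) ^ (A / (1 + A)) = ((q * T) ^ A) ^ (1 / (1 + A)) := by
          rw [← Real.rpow_mul (by positivity)]
          congr 1
          ring
      _ ≤ (T ^ (1 + A)) ^ (1 / (1 + A)) := Real.rpow_le_rpow (by positivity) h2 (by positivity)
      _ = T := by
          rw [← Real.rpow_mul hT0.le, mul_one_div_cancel hA1.ne', Real.rpow_one]
  obtain ⟨r2, r3⟩ := h q χ T hχ hCT hqT
  rw [N_eq, Nd_eq]
  refine ⟨?_, r3, ?_⟩
  · rw [zeros_eq]
    exact Pool.Agent.TH243.CYC.finite_zset χ T (2 * T) hT1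
  · set SN : ℝ := (H370.NN (DirichletCharacter.LFunction χ) T (2 * T) : ℝ) with hSN
    have hSN0 : 0 ≤ SN := Nat.cast_nonneg _
    have e : ((2 * j + 1 - c (A / (1 + A))) / (j * (j + 1)) - ε) * SN * (j * (j + 1)) =
        (2 * j + 1 - (Pool.Agent.Y762.cH (A / (1 + A)) + ε)) * SN -
          ε * (j * (j + 1) - 1) * SN := by
      have : c (A / (1 + A)) = Pool.Agent.Y762.cH (A / (1 + A)) := rfl
      rw [this]
      field_simp
      ring
    have h2 : 0 ≤ ε * (j * (j + 1) - 1) * SN := by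
      have : 0 ≤ (j : ℝ) * (j + 1) - 1 := by nlinarith
      positivity
    refine le_of_mul_le_mul_right ?_ hjj
    rw [e]
    linarith

end Pool.Agent.Results.MP_f259ea_nt.UniformDistinct
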